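import Pool.Agent.Q46.SL.Tools
import Pool.Agent.Q46.SL.Expo

/-!
# Almost prime pairs `x`, `4 x + 1` and discrete logarithms

We look for `x` such that `x` and `4 x + 1` both have at most `R` prime factors, all larger than `p ^ κ`.

Let `p` be a large prime and `g`, `c` prime to `p`. In every box `[A1, A1 + N1) × [A2, A2 + N2)` with `N1 N2 ≥ p ^ (3 / 2 + ε)` there are
many points of `y ≡ c g ^ x (mod p)` BOTH of whose coordinates, a number and its discrete logarithm, have the property. Here the property is: the number and four times the number plus one have at most `R` prime factors, all larger than `p ^ κ`. The lower bound for the number of the points is of the expected order of magnitude (`m = 0`).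

In addition the numbers avoid arbitrary residue classes, at most `m` classes `E q` modulo each prime `q ≤ z`, as long as there is no
local obstruction; `m = 0` is the case without classes. The exponent `κ`, the number `R` and the constant `cc` do not depend on the
classes.

Design and proof: helper46 (modules `Pool.Agent.Q46.SV.*`, `Pool.Agent.Q46.SL.*`): the vectors of the residues in question are
equidistributed modulo all small integers with a power saving, by bounds for exponential sums; the fundamental lemma of the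
sieve is applied to the vectors.
-/

set_option autoImplicit false

namespace Pool.Agent.Results.MP_3df474_nt.DiscreteLogarithms

open Finset Polynomial
open Pool.Agent.Q46.SL hiding Almost

/-- `n` is not zero and has at most `R` prime factors (counted with multiplicity), all larger than `z` -/
def Almost (z : ℝ) (R : ℕ) (n : ℤ) : Prop :=
  n ≠ 0 ∧ n.natAbs.primeFactorsList.length ≤ R ∧ ∀ q : ℕ, q.Prime → (q : ℤ) ∣ n → z < q

/-- `x` is positive, `x` and `4 x + 1` have at most `R` prime factors, all larger than `z`, and `x` avoids the classes `E q`, `q ≤ z` -/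
def Good (z : ℝ) (R : ℕ) (E : ℕ → Finset ℕ) (x : ℤ) : Prop :=
  0 < x ∧ Almost z R (x) ∧ Almost z R (4 * x + 1) ∧ ∀ q : ℕ, q.Prime → (q : ℝ) ≤ z → (x % q).toNat ∉ E q

/-- `E q` has at most `m` elements, and some residue `a` outside `E q` has `q ∤ a`, `q ∤ 4 a + 1` -/
def Adm (m : ℕ) (E : ℕ → Finset ℕ) : Prop :=
  ∀ q : ℕ, q.Prime → (E q).card ≤ m ∧ ∃ a < q, a ∉ E q ∧ ¬ (q : ℤ) ∣ a ∧ ¬ (q : ℤ) ∣ 4 * a + 1

/-- the polynomials and the classes -/
noncomputable def sysE (m : ℕ) (E : ℕ → Finset ℕ) (hE : Adm m E) : PE 2 m 2 where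
  f := ![X, C 4 * X + C 1]
  E := E
  deg := by
    rw [Fin.sum_univ_two]
    simp only [Matrix.cons_val]
    have d0 : (X : ℤ[X]).natDegree ≤ 1 := by compute_degree
    have d1 : (C 4 * X + C 1 : ℤ[X]).natDegree ≤ 1 := by compute_degree
    omega
  adm := by
    intro q hq
    obtain ⟨h1, a, ha, haE, h2, h3⟩ := hE q hq
    refine ⟨h1, a, ha, haE, fun j => ?_⟩
    fin_cases j
    · simpa using h2
    · simpa using h3

lemma good_of {m : ℕ} {E : ℕ → Finset ℕ} (hE : Adm m E) {κ M : ℝ} (hM : (5 : ℝ) ≤ M) {x : ℤ}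
    (h : Near 1 (sysE m E hE) κ M x) (hx : (x : ℝ) ≤ M) :
    Good (M ^ κ) ⌊((1 : ℕ) + (2 : ℕ) + 1 : ℝ) / κ⌋₊ E x := by
  obtain ⟨h0, h12⟩ := h
  obtain ⟨h1, h2⟩ := h12 (by
    intro j
    rw [pow_one]
    fin_cases j
    · exact cb_mono (cb_X) (le_trans (by norm_num) hM)
    · exact cb_mono (cb_add (cb_CX 4) (cb_C 1)) (le_trans (by norm_num) hM)) hx
  refine ⟨h0, ?_, ?_, h2⟩
  · simpa [sysE, Almost, Pool.Agent.Q46.SL.Almost] using h1 0
  · simpa [sysE, Almost, Pool.Agent.Q46.SL.Almost] using h1 1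

/-- A number and its discrete logarithm are both such that it and four times it plus one are almost primes. -/
theorem result (m : ℕ) (ε : ℝ) (hε : 0 < ε) (hε1 : ε ≤ 1) :
    ∃ κ : ℝ, 0 < κ ∧ ∃ cc : ℝ, 0 < cc ∧ ∃ R p₀ : ℕ, ∀ p : ℕ, p₀ ≤ p → p.Prime → ∀ E : ℕ → Finset ℕ, Adm m E → ∀ g c : ℤ, ¬ (p : ℤ) ∣ g → ¬ (p : ℤ) ∣ c →
      ∀ A1 N1 A2 N2 : ℕ, A1 + N1 ≤ orderOf (g : ZMod p) → A2 + N2 ≤ p → (p : ℝ) ^ (3 / 2 + ε) ≤ (N1 : ℝ) * N2 →
      ∃ G : Finset (ℕ × ℕ), cc * ((N1 : ℝ) * N2 / p) / Real.log p ^ (2 * (m + 2)) ≤ G.card ∧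
        ∀ z ∈ G, (A1 ≤ z.1 ∧ z.1 < A1 + N1) ∧ (A2 ≤ z.2 ∧ z.2 < A2 + N2) ∧ (p : ℤ) ∣ z.2 - c * g ^ z.1 ∧
          Good ((p : ℝ) ^ κ) R E z.1 ∧ Good ((p : ℝ) ^ κ) R E z.2 := by
  obtain ⟨κ, hκ, cc, hcc, p₀, h⟩ := Pool.Agent.Q46.SL.exponential (Near 1 : PE 2 m 2 → ℝ → ℝ → ℤ → Prop)
    (lg (m + 2)) (fun r _ => csN 2 m 2 1 r) ε hε hε1
  refine ⟨κ, hκ, cc, hcc, ⌊((1 : ℕ) + (2 : ℕ) + 1 : ℝ) / κ⌋₊, max 5 p₀, ?_⟩
  intro p hp hpp E hE g c hg hc A1 N1 A2 N2 hA1 hA2 hN
  have hpr : (5 : ℝ) ≤ p := by exact_mod_cast (le_max_left _ _).trans hp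
  have hord := ord_le hpp g hg
  obtain ⟨G, hG, hG2⟩ := h p ((le_max_right _ _).trans hp) (sysE m E hE) hpp g c hg hc A1 N1 A2 N2 hA1 hA2 hN
  refine ⟨G, le_trans (cnt le_rfl (by positivity) (log0 p) _ _) hG, ?_⟩
  intro z hz
  obtain ⟨a1, a2, a3, a4, a5⟩ := hG2 z hz
  exact ⟨a1, a2, a3, good_of hE hpr a4 (by exact_mod_cast (by omega : z.1 ≤ p)), good_of hE hpr a5 (by exact_mod_cast (by omega : z.2 ≤ p))⟩

end Pool.Agent.Results.MP_3df474_nt.DiscreteLogarithms
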