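import Pool.Agent.Y677.RSZ.FinInst

set_option autoImplicit false

/-!
# Narrow progressions in ARBITRARY sets of primes `p` for which `4 p + 1` is a prime

Whatever the set `A` of primes `p` for which `4 p + 1` is also a prime, all elements of `A` in `(X, X + Y]`, with
at most `ε Y / (log X) ^ 2` exceptions (an arbitrarily small proportion of the expected number of these primes), are
terms of `l`-term arithmetic progressions contained in `A ∩ (X, X + Y]` whose difference is at most a fixed power of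
`log X`; here `X ^ θ ≤ Y ≤ X` and `θ > 0` is arbitrarily small. The same holds for sets of primes `p` for which `4 p + 1` has no prime factor up to a small power of `p`,
and of these there are at least `κ X / (log X) ^ 2` in `(X, 2 X]`, even with a bounded number of prime factors of
`4 p + 1`.
-/

namespace Pool.Agent.Results.MP_3df474_nt.NarrowProgressions

open Finset Filter

/-- `n` is a term of an `l`-term arithmetic progression contained in `A ∩ (u, v]`, with difference at most `D` -/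
def OnProgression (A : Set ℕ) (l : ℕ) (D : ℝ) (u v n : ℕ) : Prop :=
  ∃ m d : ℕ, 1 ≤ d ∧ (d : ℝ) ≤ D ∧ (∀ i < l, m + i * d ∈ A ∧ u < m + i * d ∧ m + i * d ≤ v) ∧ ∃ i < l, n = m + i * d

/-- all elements of `A` in `(u, v]` with at most `t` exceptions are terms of such progressions -/
def NearlyAll (A : Set ℕ) (l : ℕ) (D : ℝ) (u v : ℕ) (t : ℝ) : Prop :=
  ({n : ℕ | u < n ∧ n ≤ v ∧ n ∈ A ∧ ¬ OnProgression A l D u v n}.ncard : ℝ) ≤ t

/-- `p` is a prime, and all prime factors of `4 p + 1` are larger than `p ^ (1 / r)` -/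
def PrimeRough (r p : ℕ) : Prop :=
  p.Prime ∧ ∀ q : ℕ, q.Prime → q ∣ 4 * p + 1 → (p : ℝ) ^ (1 / (r : ℝ)) < q

lemma val0 (m : ℕ) (hm : 1 ≤ m) : ((4 : ℕ) : ℤ) * (m : ℤ) + (1) = ((4 * m + 1 : ℕ) : ℤ) := by
  omega

lemma hR (r m : ℕ) (hm : PrimeRough r m) (i : Fin 1) (p : ℕ) (hp : p.Prime)
    (hd : (p : ℤ) ∣ (((![4] : Fin 1 → ℕ) i : ℕ) : ℤ) * (m : ℤ) + (![1] : Fin 1 → ℤ) i) : (m : ℝ) ^ (1 / (r : ℝ)) < p := by
  have hm0 : 1 ≤ m := hm.1.one_lt.le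
  apply hm.2 p hp
  fin_cases i
  · have h1 : (p : ℤ) ∣ ((4 : ℕ) : ℤ) * (m : ℤ) + (1) := hd
    rw [val0 m hm0] at h1
    exact Int.natCast_dvd_natCast.1 h1

lemma hA1 (r m : ℕ) (hm : 1 ≤ m)
    (h : ∀ i : Fin 1, ∀ p : ℕ, p.Prime → (p : ℤ) ∣ (((![4] : Fin 1 → ℕ) i : ℕ) : ℤ) * (m : ℤ) + (![1] : Fin 1 → ℤ) i →
      (m : ℝ) ^ (1 / (r : ℝ)) < (p : ℝ)) (q : ℕ) (hq : q.Prime) (hd : q ∣ 4 * m + 1) :
    (m : ℝ) ^ (1 / (r : ℝ)) < (q : ℝ) := by
  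
  · have h1 := h 0 q hq
    exact h1 (by
      have e : ((((![4] : Fin 1 → ℕ) 0 : ℕ) : ℤ) * (m : ℤ) + (![1] : Fin 1 → ℤ) 0) = ((4 : ℕ) : ℤ) * (m : ℤ) + (1) := rfl
      rw [e, val0 m hm]
      exact Int.natCast_dvd_natCast.2 hd)

lemma hA2 (r m : ℕ) (hm : 1 ≤ m)
    (h : ∀ i : Fin 1, (((((![4] : Fin 1 → ℕ) i : ℕ) : ℤ) * (m : ℤ) + (![1] : Fin 1 → ℤ) i)).natAbs.primeFactorsList.length ≤ r) :
    (4 * m + 1).primeFactorsList.length ≤ r :=
  (by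
    have h1 := h 0
    have e : ((((![4] : Fin 1 → ℕ) 0 : ℕ) : ℤ) * (m : ℤ) + (![1] : Fin 1 → ℤ) 0) = ((4 : ℕ) : ℤ) * (m : ℤ) + (1) := rfl
    rw [e, val0 m hm, Int.natAbs_natCast] at h1
    exact h1)

lemma hpos : ∀ i : Fin 1, 0 < (![4] : Fin 1 → ℕ) i := by
  intro i
  fin_cases i <;> norm_num

/-- a prime for which also the second number is a prime satisfies this -/
lemma prime_rough (r : ℕ) (hr : 2 ≤ r) (p : ℕ) (h : p.Prime ∧ (4 * p + 1).Prime) : PrimeRough r p := by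
  refine ⟨h.1, fun q hq hd => ?_⟩
  
  · have h1 : q = 4 * p + 1 := (Nat.prime_dvd_prime_iff_eq hq h.2).1 hd
    apply Pool.Agent.TH977.PW.rpow_lt_of_le r p q hr h.1.two_le
    rw [h1]
    have := h.1.two_le
    omega

open Classical in
lemma out_eq (A : Set ℕ) (l : ℕ) (D : ℝ) (u v : ℕ) :
    ({n : ℕ | u < n ∧ n ≤ v ∧ n ∈ A ∧ ¬ OnProgression A l D u v n}.ncard : ℝ) =
      (Pool.Agent.TH977.PW.N (Pool.Agent.Y677.RSZ.Outside A l D u v) u v : ℝ) := by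
  unfold Pool.Agent.TH977.PW.N
  rw [← Set.ncard_coe_finset]
  congr 2
  ext n
  rw [mem_coe, mem_filter, mem_Ioc]
  constructor
  · rintro ⟨h1, h2, h3, h4⟩
    exact ⟨⟨h1, h2⟩, h3, h4⟩
  · rintro ⟨⟨h1, h2⟩, h3, h4⟩
    exact ⟨h1, h2, h3, h4⟩

/-- **Narrow progressions in arbitrary sets of primes `p` for which `4 p + 1` is a prime.** -/
theorem result (θ : ℝ) (hθ : 0 < θ) (hθ1 : θ ≤ 1) :
    -- prime values
    (∀ l : ℕ, 2 ≤ l → ∀ ε : ℝ, 0 < ε → ∃ B : ℕ, ∀ᶠ X : ℕ in atTop, ∀ Y : ℕ, (X : ℝ) ^ θ ≤ Y → Y ≤ X →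
      ∀ A : Set ℕ, (∀ p ∈ A, p.Prime ∧ (4 * p + 1).Prime) →
        NearlyAll A l (Real.log X ^ B) X (X + Y) (ε * (Y / Real.log X ^ 2))) ∧
    -- rough values
    ∃ r₀ : ℕ, ∀ r : ℕ, r₀ ≤ r →
      (∀ l : ℕ, 2 ≤ l → ∀ ε : ℝ, 0 < ε → ∃ B : ℕ, ∀ᶠ X : ℕ in atTop, ∀ Y : ℕ,
        (X : ℝ) ^ θ ≤ Y → Y ≤ X → ∀ A : Set ℕ, (∀ p ∈ A, PrimeRough r p) →
          NearlyAll A l (Real.log X ^ B) X (X + Y) (ε * (Y / Real.log X ^ 2))) ∧
      ∃ κ : ℝ, 0 < κ ∧ ∀ᶠ X : ℕ in atTop, κ * (X / Real.log X ^ 2) ≤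
        ({p : ℕ | X < p ∧ p ≤ 2 * X ∧ PrimeRough r p ∧ (4 * p + 1).primeFactorsList.length ≤ r}.ncard : ℝ) := by
  classical
  obtain ⟨r0, hr0, h⟩ := Pool.Agent.Y677.RSZ.narrow_lin_prime (fun i => (![4] : Fin 1 → ℕ) i) (fun i => (![1] : Fin 1 → ℤ) i)
    hpos (fun i => by fin_cases i; exact isCoprime_one_right) (fun _ _ _ _ => Subsingleton.elim _ _) (fun i h => by fin_cases i; exact absurd h.1 (by norm_num)) (fun p hp => by
      by_cases h5 : p = 5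
      · subst h5
        refine ⟨2, by norm_num, fun i h => ?_⟩
        fin_cases i
        have h1 : ((5 : ℕ) : ℤ) ∣ ((4 : ℕ) : ℤ) * ((2 : ℕ) : ℤ) + 1 := h
        omega
      · refine ⟨1, fun h => hp.one_lt.ne' (Nat.dvd_one.1 h), fun i h => h5 ?_⟩
        fin_cases i
        have h1 : (p : ℤ) ∣ ((4 : ℕ) : ℤ) * ((1 : ℕ) : ℤ) + 1 := h
        have h2 : p ∣ 5 := by exact_mod_cast h1
        exact (Nat.prime_dvd_prime_iff_eq hp (by norm_num)).1 h2)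
    (fun r => {p | PrimeRough r p})
    (fun r => {p | PrimeRough r p ∧ (4 * p + 1).primeFactorsList.length ≤ r}) 2 (by rw [Fintype.card_fin])
    (fun r m hr hm => ⟨fun p hp hd => Pool.Agent.TH977.PW.rpow_lt_dvd r m p hr hm.1 hp hd,
      fun i p hp hd => hR r m hm i p hp hd⟩)
    (fun r m hr hm hm2 hm3 => ⟨⟨hm, fun q hq hd => hA1 r m hm.one_lt.le hm2 q hq hd⟩,
      hA2 r m hm.one_lt.le hm3⟩) θ hθ hθ1
  have key : ∀ r : ℕ, r0 ≤ r → ∀ l : ℕ, 2 ≤ l → ∀ ε : ℝ, 0 < ε → ∃ B : ℕ, ∀ᶠ X : ℕ in atTop, ∀ Y : ℕ,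
      (X : ℝ) ^ θ ≤ Y → Y ≤ X → ∀ A : Set ℕ, (∀ p ∈ A, PrimeRough r p) →
        NearlyAll A l (Real.log X ^ B) X (X + Y) (ε * (Y / Real.log X ^ 2)) := by
    intro r hr l hl ε hε
    obtain ⟨B, hB⟩ := (h r hr).2 l hl ε hε
    refine ⟨B, ?_⟩
    filter_upwards [hB] with X hX Y hXY hYX A hA
    have h1 := hX Y hXY hYX A (fun p hp => hA p hp)
    unfold NearlyAll
    rw [out_eq]
    calc _ ≤ ε * Y / Real.log X ^ 2 := h1
      _ = _ := by ring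
  refine ⟨?_, r0, fun r hr => ⟨key r hr, ?_⟩⟩
  · intro l hl ε hε
    obtain ⟨B, hB⟩ := key r0 le_rfl l hl ε hε
    refine ⟨B, ?_⟩
    filter_upwards [hB] with X hX Y hXY hYX A hA
    exact hX Y hXY hYX A (fun p hp => prime_rough r0 hr0 p (hA p hp))
  · obtain ⟨κ, hκ, h2⟩ := (h r hr).1
    refine ⟨κ, hκ, ?_⟩
    filter_upwards [h2] with X hX
    have h4 : {p : ℕ | X < p ∧ p ≤ 2 * X ∧ PrimeRough r p ∧ (4 * p + 1).primeFactorsList.length ≤ r} =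
        (((Ioc X (2 * X)).filter (fun m => m ∈ {p | PrimeRough r p ∧ (4 * p + 1).primeFactorsList.length ≤ r}) :
          Finset ℕ) : Set ℕ) := by
      ext n
      rw [mem_coe, mem_filter, mem_Ioc]
      constructor
      · rintro ⟨g1, g2, g3⟩
        exact ⟨⟨g1, g2⟩, g3⟩
      · rintro ⟨⟨g1, g2⟩, g3⟩
        exact ⟨g1, g2, g3⟩
    rw [h4, Set.ncard_coe_finset]
    unfold Pool.Agent.TH977.PW.N at hX
    calc κ * (X / Real.log X ^ 2) = κ * X / Real.log X ^ 2 := by ring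
      _ ≤ _ := hX
      _ = _ := by
        norm_cast
        exact congrArg card (Finset.ext fun n => by simp only [mem_filter])

end Pool.Agent.Results.MP_3df474_nt.NarrowProgressions
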